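import Mathlib
import Pool.Agent.Helper38.DiceMain

namespace Pool.Agent.Results.MP_652ce8_co.DiceBound

open MeasureTheory ProbabilityTheory

/-- Let `X 0, ..., X (n-1)` be independent, identically distributed, integer-valued random
variables (for instance the labels shown by `n` identical dice with arbitrary integer labels,
tossed independently).  Then `n` divides their sum with probability at least `1 / 2 ^ (n - 1)`. -/
theorem result {Ω : Type*} [MeasurableSpace Ω] (P : Measure Ω) [IsProbabilityMeasure P]
    (n : ℕ) (hn : 1 ≤ n) (X : Fin n → Ω → ℤ) (hmeas : ∀ i, Measurable (X i))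
    (hindep : iIndepFun X P) (hident : ∀ i j, IdentDistrib (X i) (X j) P P) :
    (1 / 2 : ℝ) ^ (n - 1) ≤ P.real {ω | (n : ℤ) ∣ ∑ i, X i ω} :=
  Pool.Agent.Helper38.Dice.main P n hn X hmeas hindep hident

end Pool.Agent.Results.MP_652ce8_co.DiceBound
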